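import Mathlib

namespace Pool.Agent.Results.MP_433145_co.Full

open Finset Equiv

/-- A strategy: a permutation `S k` of `Fin k` for every `k`. -/
abbrev Strat := ∀ k : ℕ, Perm (Fin k)

variable {n : ℕ}

/-- The position `i_j` of `I = {i_1 < ... < i_k}` is sent to `i_{S[k](j)}`; the rest is fixed. -/
noncomputable def mv (S : Strat) (I : Finset (Fin n)) : Perm (Fin n) :=
  (S #I).extendDomain (I.orderIsoOfFin rfl).toEquiv

/-- `guess S π r` is the guess `γ_{r+1}`, a map from positions to entries. -/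
noncomputable def guess (S : Strat) (π : Perm (Fin n)) : ℕ → Perm (Fin n)
  | 0 => 1
  | r + 1 => guess S π r * (mv S {i | guess S π r i ≠ π i})⁻¹

/-- The number of secrets for which the game ends after exactly three guesses. -/
noncomputable def a3 (S : Strat) (n : ℕ) : ℕ :=
  #{π : Perm (Fin n) | guess S π 0 ≠ π ∧ guess S π 1 ≠ π ∧ guess S π 2 = π}

def Der (S : Strat) (n : ℕ) : Prop := ∀ k, 2 ≤ k → k ≤ n → ∀ j, S k j ≠ j

theorem out (S : Strat) (I : Finset (Fin n)) (p : Fin n) (h : p ∉ I) : mv S I p = p :=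
  Perm.extendDomain_apply_not_subtype _ _ h

theorem app (S : Strat) (I : Finset (Fin n)) (j : Fin #I) :
    mv S I (I.orderEmbOfFin rfl j) = I.orderEmbOfFin rfl (S _ j) :=
  Perm.extendDomain_apply_image (S #I) (I.orderIsoOfFin rfl).toEquiv j

theorem ex (I : Finset (Fin n)) (p : Fin n) (h : p ∈ I) : ∃ j, I.orderEmbOfFin rfl j = p := by
  rwa [← mem_coe, ← range_orderEmbOfFin I rfl] at h

theorem fix {S : Strat} (d : Der S n) (I : Finset (Fin n)) (c : 2 ≤ #I) (p : Fin n) :
    mv S I p = p ↔ p ∉ I := by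
  refine ⟨fun e h => ?_, out S I p⟩
  obtain ⟨j, rfl⟩ := ex I p h
  rw [app] at e
  exact d _ c (by simpa using card_le_univ I) j ((I.orderEmbOfFin rfl).injective e)

theorem fix' {S : Strat} (d : Der S n) (I : Finset (Fin n)) (c : 2 ≤ #I) (p : Fin n) :
    (mv S I)⁻¹ p = p ↔ p ∉ I := by
  rw [Perm.inv_eq_iff_eq, eq_comm, fix d I c]

theorem mem (S : Strat) (I : Finset (Fin n)) (p : Fin n) : mv S I p ∈ I ↔ p ∈ I := by
  refine ⟨fun h => by_contra fun q => q (out S I p q ▸ h), fun h => ?_⟩
  obtain ⟨j, rfl⟩ := ex I p h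
  exact app S I j ▸ orderEmbOfFin_mem _ _ _

theorem mem' (S : Strat) (I : Finset (Fin n)) (p : Fin n) : (mv S I)⁻¹ p ∈ I ↔ p ∈ I := by
  rw [← mem S]
  simp

noncomputable def good (S : Strat) (I : Finset (Fin n)) : Finset (Finset (Fin n)) :=
  {J ∈ I.powerset | 2 ≤ #J ∧ ∀ p ∈ J, mv S J p ≠ (mv S I)⁻¹ p}

noncomputable def bad (S : Strat) (I : Finset (Fin n)) : Finset (Finset (Fin n)) :=
  {J ∈ I.powerset | 2 ≤ #J ∧ ¬ ∀ p ∈ J, mv S J p ≠ (mv S I)⁻¹ p}

theorem cnt {S : Strat} (d : Der S n) : a3 S n = ∑ I : Finset (Fin n), #(good S I) := by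
  rw [a3, ← card_sigma]
  symm
  have k : ∀ I J : Finset (Fin n), J ∈ good S I →
      ({i | (1 : Perm (Fin n)) i ≠ ((mv S I)⁻¹ * (mv S J)⁻¹) i} : Finset (Fin n)) = I ∧
      ({i | (1 * (mv S I)⁻¹) i ≠ ((mv S I)⁻¹ * (mv S J)⁻¹) i} : Finset (Fin n)) = J := by
    intro I J h
    obtain ⟨a, b, c⟩ := mem_filter.1 h
    have a := mem_powerset.1 a
    refine ⟨ext fun i => ?_, ext fun i => ?_⟩
    · simp only [mem_filter, mem_univ, true_and, Perm.mul_apply, Perm.one_apply]
      by_cases q : i ∈ J
      · exact iff_of_true (by simpa using c _ ((mem' S J i).2 q)) (a q)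
      · rw [(fix' d J b i).2 q, ne_comm, Ne, fix' d I (b.trans (card_le_card a)), not_not]
    · simp only [mem_filter, mem_univ, true_and, Perm.mul_apply, one_mul, Ne, EmbeddingLike.apply_eq_iff_eq]
      rw [eq_comm, fix' d J b, not_not]
  refine card_bij (fun x _ => (mv S x.1)⁻¹ * (mv S x.2)⁻¹) (fun x h => ?_) (fun x h y g e => ?_)
    fun π h => ?_
  · obtain ⟨a, b⟩ := k _ _ (mem_sigma.1 h).2
    obtain ⟨u, v, -⟩ := mem_filter.1 (mem_sigma.1 h).2
    have u := card_le_card (mem_powerset.1 u)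
    simp only [mem_filter, mem_univ, true_and, guess, a, b]
    refine ⟨fun e => ?_, fun e => ?_, by simp⟩
    · simp [← e] at a
      simp [← a] at u
      simp [u] at v
    · simp [← e] at b
      simp [← b] at v
  · obtain ⟨a, b⟩ := k _ _ (mem_sigma.1 h).2
    obtain ⟨u, v⟩ := k _ _ (mem_sigma.1 g).2
    obtain ⟨I, J⟩ := x
    obtain ⟨I', J'⟩ := y
    dsimp only at *
    rw [e, u] at a
    subst a
    rw [e, v] at b
    rw [b]
  · simp only [mem_filter, mem_univ, true_and, guess] at h
    obtain ⟨-, b, c⟩ := h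
    generalize hI : ({i | (1 : Perm (Fin n)) i ≠ π i} : Finset (Fin n)) = I at *
    generalize hJ : ({i | (1 * (mv S I)⁻¹) i ≠ π i} : Finset (Fin n)) = J at *
    have mI : ∀ i, i ∈ I ↔ i ≠ π i := fun i => by simp [← hI]
    have mJ : ∀ i, i ∈ J ↔ (mv S I)⁻¹ i ≠ π i := fun i => by simp [← hJ]
    have s : J ⊆ I := fun i h => by_contra fun q => (mJ i).1 h (by
      rw [Perm.inv_eq_iff_eq, ← not_not.1 (mt (mI i).2 q), out S I i q])
    refine ⟨⟨I, J⟩, mem_sigma.2 ⟨mem_univ _, mem_filter.2 ⟨mem_powerset.2 s, ?_, fun p h e => ?_⟩⟩,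
      by simpa using c⟩
    · obtain ⟨i, h⟩ : ∃ i, (mv S I)⁻¹ i ≠ π i := by simpa [Equiv.ext_iff] using b
      refine one_lt_card.2 ⟨i, (mJ i).2 h, π⁻¹ ((mv S I)⁻¹ i), (mJ _).2 ?_, fun e => h ?_⟩
      · intro e
        have e : π⁻¹ ((mv S I)⁻¹ i) = i := (mv S I)⁻¹.injective (by simpa using e)
        exact h (Perm.inv_eq_iff_eq.1 e)
      · exact (Perm.eq_inv_iff_eq.1 e).symm
    · refine (mI _).1 (s ((mem S J p).2 h)) ?_
      rw [← c]
      simpa using e

theorem cyc (I : Finset (Fin n)) (q : Fin n) (h : q ∈ I) :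
    (q < mv finRotate I q ∧ ∀ x ∈ I, x ≤ q ∨ mv finRotate I q ≤ x) ∨
      ∀ x ∈ I, mv finRotate I q ≤ x ∧ x ≤ q := by
  obtain ⟨j, rfl⟩ := ex I q h
  rw [app]
  have : ∀ k (j : Fin k), (j < finRotate k j ∧ ∀ x, x ≤ j ∨ finRotate k j ≤ x) ∨
      ∀ x, finRotate k j ≤ x ∧ x ≤ j := by
    rintro (_ | k) j
    · exact j.elim0
    by_cases e : j = Fin.last k
    · exact Or.inr fun x => ⟨by simp [e], e ▸ x.le_last⟩
    · have := coe_finRotate_of_ne_last e
      exact Or.inl ⟨by rw [Fin.lt_def]; omega, fun x => by simp only [Fin.le_def]; omega⟩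
  refine (this _ j).imp (fun a => ⟨by simpa using a.1, fun x g => ?_⟩) fun a x g => ?_ <;>
    obtain ⟨i, rfl⟩ := ex I x g
  · simpa using a.2 i
  · simpa using a i

theorem up (I : Finset (Fin n)) : #(bad finRotate I) ≤ #I := by
  refine (card_le_card (t := I.image fun p => {p, (mv finRotate I)⁻¹ p}) fun J h => ?_).trans
    card_image_le
  simp only [bad, mem_filter, mem_powerset, not_forall, not_not] at h
  obtain ⟨s, c, p, a, e⟩ := h
  refine mem_image.2 ⟨p, s a, (eq_of_subset_of_card_le (fun x g => ?_) (card_le_two.trans c)).symm⟩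
  have u := cyc J p a
  have v := cyc I _ ((mem' finRotate I p).2 (s a))
  rw [show mv finRotate I ((mv finRotate I)⁻¹ p) = p by simp] at v
  rw [e] at u
  have := s g
  grind

theorem low {S : Strat} (d : Der S n) (I : Finset (Fin n)) (c : 3 ≤ #I) : #I ≤ #(bad S I) := by
  have r : ∀ p q : Fin n, ∃ r ∈ I, r ∉ ({p, q} : Finset (Fin n)) := fun p q =>
    exists_mem_notMem_of_card_lt_card (card_le_two.trans_lt c)
  choose r r1 r2 using r
  have f := fun p h => mt (fix' d I (by omega) p).1 (not_not.2 h)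
  have m := mem' S I
  unfold bad
  generalize (mv S I)⁻¹ = t at *
  have j := t.injective
  refine card_le_card_of_injOn (fun p => if t (t p) = p ∧ t p < p then {p, t p, r p (t p)}
    else {p, t p}) (fun p h => ?_) fun p h q g e => ?_
  · have := f p h
    have := r2 p (t p)
    have := r1 p (t p)
    have := (m p).2 h
    have h : p ∈ I := h
    simp only [coe_filter, mem_powerset, Set.mem_ofPred_eq]
    split_ifs with x
    · have c : 2 ≤ #{p, t p, r p (t p)} := one_lt_card.2 ⟨p, by simp, t p, by simp, by grind⟩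
      refine ⟨by grind, c, fun y => ?_⟩
      have a := y p (by simp)
      have b := y (t p) (by simp)
      have := (mem S _ p).2 (show p ∈ ({p, t p, r p (t p)} : Finset _) by simp)
      have := (mem S _ (t p)).2 (show t p ∈ ({p, t p, r p (t p)} : Finset _) by simp)
      have := fix d _ c p
      have := fix d _ c (t p)
      have := (mv S {p, t p, r p (t p)}).injective.ne (f p h)
      grind
    · have c : 2 ≤ #{p, t p} := one_lt_card.2 ⟨p, by simp, t p, by simp, by grind⟩
      refine ⟨by grind, c, fun y => ?_⟩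
      have a := y p (by simp)
      have := (mem S _ p).2 (show p ∈ ({p, t p} : Finset _) by simp)
      have := fix d _ c p
      grind
  · have := f p h
    have := f q g
    have := r2 p (t p)
    have := r2 q (t q)
    have i1 := j.eq_iff (a := p) (b := q)
    have i2 := j.eq_iff (a := t p) (b := q)
    have i3 := j.eq_iff (a := t q) (b := p)
    have e := fun x => Finset.ext_iff.1 e x
    dsimp only at e
    have e1 := e p
    have e2 := e q
    have e3 := e (t p)
    have e4 := e (t q)
    have e5 := e (r p (t p))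
    have e6 := e (r q (t q))
    clear e
    split_ifs at e1 e2 e3 e4 e5 e6 <;>
      simp only [mem_insert, mem_singleton, true_or, or_true, true_iff, iff_true] at * <;> grind

theorem result : ∀ (n : ℕ) (S : Strat), Der S n → a3 S n ≤ a3 finRotate n := by
  intro n S d
  have e : Der finRotate n := by
    rintro (_ | k) a - j e
    · omega
    have := coe_finRotate j
    rw [e] at this
    split_ifs at this with q
    · rw [q, Fin.val_last] at this; omega
    · omega
  rw [cnt d, cnt e]
  refine sum_le_sum fun I _ => ?_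
  by_cases c : 3 ≤ #I
  · have t : ∀ S, #(good S I) + #(bad S I) = #{J ∈ I.powerset | 2 ≤ #J} := fun S => by
      rw [good, bad, ← filter_filter, ← filter_filter, card_filter_add_card_filter_not]
    have := t S
    have := t finRotate
    have := up I
    have := low d I c
    omega
  · refine (card_eq_zero.2 (eq_empty_of_forall_notMem fun J h => ?_)).trans_le (Nat.zero_le _)
    obtain ⟨s, a, b⟩ := mem_filter.1 h
    obtain rfl := eq_of_subset_of_card_le (mem_powerset.1 s) (by omega)
    obtain ⟨p, q, x, rfl⟩ := card_eq_two.1 (show #J = 2 by omega)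
    have := b p (by simp)
    have := fix d _ a p
    have := fix' d _ a p
    have := (mem S {p, q} p).2 (by simp)
    have := (mem' S {p, q} p).2 (by simp)
    grind

end Pool.Agent.Results.MP_433145_co.Full
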